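import Pool.Agent.Lib.KB47.Loc

/-! Project kb, block H: the patched weight and the test function. -/

open scoped Topology ContDiff ComplexOrder Matrix
open Set Complex Filter

noncomputable section

namespace Pool.Agent.Lib.KB47

open Pool.Agent.Lib.SV (E)
open Pool.Agent.Lib.HS32 Pool.Agent.Lib.KH Pool.Agent.Lib.KH.MAX

variable {n : ℕ} {M : Mf n} {O : Set M.X} {u w : M.X → ℝ}

/-- Smooth and plurisubharmonic on `O`. -/
def PsK (M : Mf n) (O : Set M.X) (u : M.X → ℝ) : Prop :=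
  OnK M O fun e z => Ps (fun y => u (e.symm y)) z

theorem PsK.sm (h : PsK M O u) : SmK M O u := fun e he z hz ho => (h e he z hz ho).1

theorem PsK.pos (h : PsK M O u) : OnK M O fun e z => (M.hs u e z).PosSemidef :=
  fun e he z hz ho => psd (hess_herm (h e he z hz ho).1) (h e he z hz ho).2

theorem psK_of (h : SmK M O u) (h' : OnK M O fun e z => (M.hs u e z).PosSemidef) : PsK M O u :=
  fun e he z hz ho => ⟨h e he z hz ho, fun v =>
    (Complex.nonneg_iff.1 ((h' e he z hz ho).dotProduct_mulVec_nonneg v)).1⟩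

theorem PsK.mono (h : PsK M O u) {O' : Set M.X} (hO : O' ⊆ O) : PsK M O' u :=
  fun e he z hz ho => h e he z hz (hO ho)

theorem psK_const (c : ℝ) : PsK M O fun _ => c := fun _ _ _ _ _ => ps_const c

theorem PsK.add (hu : PsK M O u) (hw : PsK M O w) : PsK M O fun x => u x + w x :=
  fun e he z hz ho => (hu e he z hz ho).add (hw e he z hz ho)

theorem PsK.mul (hu : PsK M O u) {c : ℝ} (hc : 0 ≤ c) : PsK M O fun x => c * u x :=
  fun e he z hz ho => (hu e he z hz ho).mul hc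

theorem psK_log {f : M.X → ℂ} (h : HoK M O f) (h0 : ∀ x ∈ O, f x ≠ 0) (c : ℝ) :
    PsK M O fun x => c * Real.log (normSq (f x)) :=
  fun e he z hz ho => ps_log (h e he z hz ho) (h0 _ ho) c

theorem psK_lsq {ι : Type} [Fintype ι] {f : ι → M.X → ℂ} (h : ∀ i, HoK M O (f i)) {r : ℝ}
    (hr : 0 < r) : PsK M O fun x => Real.log (∑ i, normSq (f i x) + r) := fun e he z hz ho =>
  (ps_lsq (fun i => h i e he z hz ho) hr.le
    (add_pos_of_nonneg_of_pos (Finset.sum_nonneg fun _ _ => normSq_nonneg _) hr)).1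

theorem PsK.two (hu : PsK M O u) (hw : PsK M O w) :
    PsK M O fun x => Real.log (Real.exp (u x) + Real.exp (w x)) :=
  fun e he z hz ho => (KB47.two (hu e he z hz ho) (hw e he z hz ho)).1

/-- The patched weight. -/
theorem psi {a k δ m C : ℝ} (a0 : 0 < a) (k0 : 0 < k) (δ0 : 0 < δ) (m0 : 0 < m) :
    ∃ K : ℝ, 0 ≤ K ∧ ∀ (n : ℕ) (M : Mf n) (O : Set M.X) (ι κ : Type) [Fintype ι] [Fintype κ]
      (σ : ι → M.X → ℂ) (Y : κ → M.X → ℂ), IsOpen O → (∀ i, HoK M O (σ i)) →
      (∀ i, HoK M O (Y i)) → (∀ x ∈ O, ∑ i, normSq (σ i x) ≤ 2 * δ →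
        ∑ i, normSq (Y i x) ≤ C * (∑ i, normSq (σ i x)) ^ (k / a) ∧
        (δ ≤ ∑ i, normSq (σ i x) → m ≤ ∑ i, normSq (Y i x))) → ∀ r ∈ Ioc (0 : ℝ) 1,
      ∃ Ψ : M.X → ℝ, PsK M O Ψ ∧ ∀ x ∈ O, Ψ x ≤ a * Real.log (∑ i, normSq (Y i x) + 1) + K ∧
        (∑ i, normSq (σ i x) ≤ 2 * δ →
          |Ψ x - k * Real.log (∑ i, normSq (σ i x) + r ^ 2)| ≤ K) := by
  set c := |k * Real.log (2 * δ + 1)| + |a * Real.log m| with hc
  have c0 : 0 ≤ c := by positivity
  have L0 : 0 ≤ a * Real.log (|C| + 1) :=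
    mul_nonneg a0.le (Real.log_nonneg (le_add_of_nonneg_left (abs_nonneg C)))
  refine ⟨2 * c + 1 + a * Real.log (|C| + 1), by positivity, ?_⟩
  intro n M O ι κ _ _ σ Y hO hσ hY h r hr
  have r2 : 0 < r ^ 2 := pow_pos hr.1 2
  have r3 : r ^ 2 ≤ 1 := pow_le_one₀ hr.1.le hr.2
  have q0 : 0 < (r ^ 2) ^ (k / a) := Real.rpow_pos_of_pos r2 _
  have q1 : (r ^ 2) ^ (k / a) ≤ 1 := Real.rpow_le_one r2.le r3 (div_pos k0 a0).le
  set ρ := fun x => ∑ i, normSq (σ i x) with hρ
  set y := fun x => ∑ i, normSq (Y i x) with hy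
  have ρ0 (x) : 0 ≤ ρ x := Finset.sum_nonneg fun _ _ => normSq_nonneg _
  have y0 (x) : 0 ≤ y x := Finset.sum_nonneg fun _ _ => normSq_nonneg _
  set v := fun x => a * Real.log (y x + (r ^ 2) ^ (k / a)) with hv
  set w := fun x => k * Real.log (ρ x + r ^ 2) + -c with hw
  have pv : PsK M O v := (psK_lsq hY q0).mul a0.le
  have pw : PsK M O w := ((psK_lsq hσ r2).mul k0.le).add (psK_const _)
  have w1 (x) (hx : ρ x ≤ 2 * δ) : k * Real.log (ρ x + r ^ 2) ≤ |k * Real.log (2 * δ + 1)| :=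
    (mul_le_mul_of_nonneg_left (Real.log_le_log (add_pos_of_nonneg_of_pos (ρ0 x) r2)
      (add_le_add hx r3)) k0.le).trans (le_abs_self _)
  have sh (x) (hx : x ∈ O) (h1 : δ ≤ ρ x) (h2 : ρ x ≤ 2 * δ) : w x - v x ≤ 0 := by
    have b1 : a * Real.log m ≤ v x := mul_le_mul_of_nonneg_left
      (Real.log_le_log m0 (((h x hx h2).2 h1).trans (le_add_of_nonneg_right q0.le))) a0.le
    have b2 := neg_abs_le (a * Real.log m)
    have b3 := w1 x h2
    simp only [hw]
    linarith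
  have v1 (x) : v x ≤ a * Real.log (y x + 1) := mul_le_mul_of_nonneg_left
    (Real.log_le_log (add_pos_of_nonneg_of_pos (y0 x) q0) (add_le_add le_rfl q1)) a0.le
  have v2 (x) (hx : x ∈ O) (h2 : ρ x ≤ 2 * δ) :
      v x ≤ k * Real.log (ρ x + r ^ 2) + a * Real.log (|C| + 1) := by
    have p := add_pos_of_nonneg_of_pos (ρ0 x) r2
    have t1 : ρ x ^ (k / a) ≤ (ρ x + r ^ 2) ^ (k / a) :=
      Real.rpow_le_rpow (ρ0 x) (le_add_of_nonneg_right r2.le) (div_pos k0 a0).le
    have t2 : (r ^ 2) ^ (k / a) ≤ (ρ x + r ^ 2) ^ (k / a) :=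
      Real.rpow_le_rpow r2.le (le_add_of_nonneg_left (ρ0 x)) (div_pos k0 a0).le
    have t3 : y x ≤ |C| * (ρ x + r ^ 2) ^ (k / a) := (h x hx h2).1.trans
      (mul_le_mul (le_abs_self C) t1 (Real.rpow_nonneg (ρ0 x) _) (abs_nonneg C))
    have t4 : y x + (r ^ 2) ^ (k / a) ≤ (ρ x + r ^ 2) ^ (k / a) * (|C| + 1) := by linarith
    refine (mul_le_mul_of_nonneg_left
      (Real.log_le_log (add_pos_of_nonneg_of_pos (y0 x) q0) t4) a0.le).trans_eq ?_
    rw [Real.log_mul (Real.rpow_pos_of_pos p _).ne' (by positivity), Real.log_rpow p]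
    field_simp
  have bd (x) (hx : x ∈ O) (h2 : ρ x ≤ 2 * δ) : w x - 1 ≤ v x + xi (w x - v x) ∧
      v x + xi (w x - v x) ≤ max (w x) (v x) := by
    obtain ⟨-, -, -, b1, b2⟩ := xi_b (w x - v x)
    refine ⟨by linarith, ?_⟩
    rcases le_total (w x - v x) 0 with t | t
    · rw [max_eq_right t] at b2
      exact le_max_of_le_right (by linarith)
    · rw [max_eq_left t] at b2
      exact le_max_of_le_left (by linarith)
  refine ⟨fun x => if ρ x ≤ 2 * δ then v x + xi (w x - v x) else v x, fun e he z hz ho => ?_,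
    fun x hx => ⟨?_, fun h2 => ?_⟩⟩
  · have cρ : ContinuousAt (fun t => ρ (e.symm t)) z :=
      (sq_rule (fun i => hσ i e he z hz ho) 0).1.continuousAt
    have cO : ∀ᶠ t in 𝓝 z, e.symm t ∈ O := (e.continuousAt_symm hz).eventually (hO.mem_nhds ho)
    rcases lt_or_ge (ρ (e.symm z)) (2 * δ) with t | t
    · exact ((pv e he z hz ho).max (pw e he z hz ho)).congr
        ((cρ.eventually (gt_mem_nhds t)).mono fun s hs => if_pos hs.le)
    · refine (pv e he z hz ho).congr ?_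
      filter_upwards [cO, cρ.eventually (lt_mem_nhds (show δ < ρ (e.symm z) by linarith))]
        with s s1 s2
      split_ifs with s3
      · rw [xi_zero (sh _ s1 s2.le s3), add_zero]
      · rfl
  · have l0 : 0 ≤ a * Real.log (y x + 1) :=
      mul_nonneg a0.le (Real.log_nonneg (le_add_of_nonneg_left (y0 x)))
    have := v1 x
    have := abs_nonneg (a * Real.log m)
    show (if ρ x ≤ 2 * δ then _ else _) ≤ a * Real.log (y x + 1) + _
    split_ifs with h2
    · refine (bd x hx h2).2.trans (max_le ?_ (by linarith))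
      have := w1 x h2
      simp only [hw]
      linarith
    · linarith
  · have h3 : ρ x ≤ 2 * δ := h2
    obtain ⟨b1, b2⟩ := bd x hx h3
    have b3 := v2 x hx h3
    show |(if ρ x ≤ 2 * δ then _ else _) - k * Real.log (ρ x + r ^ 2)| ≤ _
    rw [if_pos h3, abs_le]
    simp only [hw] at b1 b2
    refine ⟨by linarith, ?_⟩
    have := b2.trans (max_le (c := k * Real.log (ρ x + r ^ 2) + a * Real.log (|C| + 1))
      (by linarith) b3)
    linarith

/-- The cut-off function. -/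
def ct (δ t : ℝ) : ℝ := Real.smoothTransition (2 - t / δ)

theorem ct_cd (δ : ℝ) : ContDiff ℝ ∞ (ct δ) :=
  Real.smoothTransition.contDiff.comp (contDiff_const.sub (contDiff_id.div_const δ))

theorem ct_b {δ : ℝ} (δ0 : 0 < δ) (t : ℝ) : 0 ≤ ct δ t ∧ ct δ t ≤ 1 ∧ (t ≤ δ → ct δ t = 1) ∧
    (2 * δ ≤ t → ct δ t = 0) := by
  refine ⟨Real.smoothTransition.nonneg _, Real.smoothTransition.le_one _, fun h => ?_, fun h => ?_⟩
  · exact Real.smoothTransition.one_of_one_le (by linarith [(div_le_one δ0).2 h])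
  · exact Real.smoothTransition.zero_of_nonpos (by linarith [(le_div_iff₀ δ0).2 h])

theorem ct_d {δ : ℝ} (δ0 : 0 < δ) : ∃ C, 0 ≤ C ∧ ∀ t, 0 ≤ t →
    deriv (ct δ) t ^ 2 * (t * (t + 1) ^ 2) ≤ (Icc δ (2 * δ)).indicator (fun _ => C) t := by
  have hc : Continuous fun t => deriv (ct δ) t ^ 2 * (t * (t + 1) ^ 2) := by
    have := (ct_cd δ).continuous_deriv (by simp)
    fun_prop
  obtain ⟨C, hC⟩ := (isCompact_Icc (a := δ) (b := 2 * δ)).bddAbove_image hc.continuousOn
  refine ⟨max C 0, le_max_right _ _, fun t t0 => ?_⟩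
  by_cases h : t ∈ Icc δ (2 * δ)
  · rw [indicator_of_mem h]
    exact le_max_of_le_left (hC ⟨t, h, rfl⟩)
  · rw [indicator_of_notMem h]
    have : deriv (ct δ) t = 0 := by
      rcases not_and_or.1 h with h1 | h1
      · rw [Filter.EventuallyEq.deriv_eq (f := fun _ => 1)
          ((gt_mem_nhds (not_le.1 h1)).mono fun s hs => (ct_b δ0 s).2.2.1 hs.le), deriv_const]
      · rw [Filter.EventuallyEq.deriv_eq (f := fun _ => 0)
          ((lt_mem_nhds (not_le.1 h1)).mono fun s hs => (ct_b δ0 s).2.2.2 hs.le), deriv_const]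
    rw [this]
    simp

/-- The test function and its weight. -/
theorem dah {δ : ℝ} (δ0 : 0 < δ) : ∃ C : ℝ, 0 ≤ C ∧ ∀ (n : ℕ) (M : Mf n) (O : Set M.X) (ι : Type)
    [Fintype ι] (σ : ι → M.X → ℂ) (A : M.X → ℂ) (u w R : M.X → ℝ) (θ ε : ℝ), 0 < θ → 0 < ε →
    (∀ i, HoK M O (σ i)) → HoK M O A → PsK M O u → PsK M O w → PsK M O R →
    Da M O (fun x => θ * Real.log (Real.exp (u x) + Real.exp (w x)) +
        ε * Real.log (∑ i, normSq (σ i x) + 1) + R x)
      (fun x => 2 * normSq (A x) * (ct δ (∑ i, normSq (σ i x)) ^ 2 * (θ⁻¹ *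
        (Real.exp (u x) * Real.exp (w x) / (Real.exp (u x) + Real.exp (w x)) ^ 2)) +
        (Real.exp (u x) / (Real.exp (u x) + Real.exp (w x))) ^ 2 *
          (ε⁻¹ * (Icc δ (2 * δ)).indicator (fun _ => C) (∑ i, normSq (σ i x)))))
      fun x => ((ct δ (∑ i, normSq (σ i x)) *
        (Real.exp (u x) / (Real.exp (u x) + Real.exp (w x))) : ℝ) : ℂ) * A x := by
  obtain ⟨C, C0, hC⟩ := ct_d δ0
  refine ⟨C, C0, fun n M O ι _ σ A u w R θ ε θ0 ε0 hσ hA hu hw hR => ?_⟩
  have p1 := (hu.two hw).mul θ0.le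
  have p2 := (psK_lsq hσ one_pos).mul ε0.le
  have hP := (p1.add p2).add hR
  have c1 (e) (he : e ∈ M.C) (z) (hz : z ∈ e.target) (ho : e.symm z ∈ O) :=
    (sq_rule (fun i => hσ i e he z hz ho) 0).1
  have c2 (e) (he : e ∈ M.C) (z) (hz : z ∈ e.target) (ho : e.symm z ∈ O) :=
    (ct_cd δ).contDiffAt.comp z (c1 e he z hz ho)
  have c3 (e) (he : e ∈ M.C) (z) (hz : z ∈ e.target) (ho : e.symm z ∈ O) :=
    (two (hu e he z hz ho) (hw e he z hz ho)).2
  refine ⟨hP.sm, fun e he z hz ho => (cd_ofReal ((c2 e he z hz ho).mul (c3 e he z hz ho).1)).mul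
    (BHOL.smooth (hA e he z hz ho)), fun x _ => ?_, hP.pos, fun e he z hz ho v => ?_⟩
  · have := normSq_nonneg (A x)
    have : 0 ≤ (Icc δ (2 * δ)).indicator (fun _ => C) (∑ i, normSq (σ i x)) :=
      indicator_nonneg (fun _ _ => C0) _
    positivity
  · have S0 : 0 ≤ ∑ i, normSq (σ i (e.symm z)) := Finset.sum_nonneg fun _ _ => normSq_nonneg _
    have k1 := (c3 e he z hz ho).2 v
    have k2 := (ps_lsq (fun i => hσ i e he z hz ho) zero_le_one (by positivity)).2 v
    have k3 := hC _ S0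
    have q1 := ((hu.two hw) e he z hz ho)
    have q2 := (psK_lsq hσ one_pos) e he z hz ho
    have q3 := (hR e he z hz ho).2 v
    have d1 := dw_comp ((ct_cd δ).differentiable (by simp) _).hasDerivAt (c1 e he z hz ho) v
    have e1 := dbv_mul (hA e he z hz ho) ((c2 e he z hz ho).mul (c3 e he z hz ho).1) v
    rw [dw_mul (c2 e he z hz ho) (c3 e he z hz ho).1] at e1
    have e2 := lw_add ((p1.add p2) e he z hz ho).1 (hR e he z hz ho).1 v
    rw [lw_add (p1 e he z hz ho).1 (p2 e he z hz ho).1, mul_rule θ q1.1, mul_rule ε q2.1] at e2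
    refine e1.trans_le (le_trans ?_ (mul_le_mul_of_nonneg_left e2.ge ?_))
    swap
    · have := normSq_nonneg (A (e.symm z))
      have : 0 ≤ (Icc δ (2 * δ)).indicator (fun _ => C) (∑ i, normSq (σ i (e.symm z))) :=
        indicator_nonneg (fun _ _ => C0) _
      positivity
    have l1 := q1.2 v
    have l2 := q2.2 v
    simp only [Function.comp_def] at d1 k2 ⊢
    rw [d1]
    generalize lw (fun x => Real.log (Real.exp (u (e.symm x)) + Real.exp (w (e.symm x)))) z v = L1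
      at *
    generalize lw (fun x => Real.log (∑ i, normSq (σ i (e.symm x)) + 1)) z v = L2 at *
    generalize lw (fun y => R (e.symm y)) z v = L3 at *
    generalize dw (fun x => Real.exp (u (e.symm x)) /
      (Real.exp (u (e.symm x)) + Real.exp (w (e.symm x)))) z v = D1 at *
    generalize dw (fun x => ∑ i, normSq (σ i (e.symm x))) z v = D2 at *
    have g0 : 0 ≤ Real.exp (u (e.symm z)) * Real.exp (w (e.symm z)) /
      (Real.exp (u (e.symm z)) + Real.exp (w (e.symm z))) ^ 2 := by positivity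
    generalize Real.exp (u (e.symm z)) * Real.exp (w (e.symm z)) /
      (Real.exp (u (e.symm z)) + Real.exp (w (e.symm z))) ^ 2 = G at *
    generalize Real.exp (u (e.symm z)) / (Real.exp (u (e.symm z)) + Real.exp (w (e.symm z))) = P
      at *
    have i0 : 0 ≤ (Icc δ (2 * δ)).indicator (fun _ => C) (∑ i, normSq (σ i (e.symm z))) :=
      indicator_nonneg (fun _ _ => C0) _
    generalize (Icc δ (2 * δ)).indicator (fun _ => C) (∑ i, normSq (σ i (e.symm z))) = J at *
    generalize deriv (ct δ) (∑ i, normSq (σ i (e.symm z))) = c' at *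
    generalize ct δ (∑ i, normSq (σ i (e.symm z))) = c at *
    generalize (∑ i, normSq (σ i (e.symm z))) = S at *
    have n1 : normSq (c * D1 + P * (c' * D2)) ≤ 2 * (c ^ 2 * normSq D1) +
        2 * (P ^ 2 * (c' ^ 2 * normSq D2)) := by
      simp only [normSq_apply, add_re, add_im, re_ofReal_mul, im_ofReal_mul]
      nlinarith [sq_nonneg (c * D1.re - P * (c' * D2.re)), sq_nonneg (c * D1.im - P * (c' * D2.im))]
    have n2 : c' ^ 2 * normSq D2 ≤ J * L2 :=
      (mul_le_mul_of_nonneg_left ((one_mul _).symm.trans_le k2) (sq_nonneg c')).trans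
        (by rw [← mul_assoc]; exact mul_le_mul_of_nonneg_right k3 l2)
    have n3 : G * L1 ≤ θ⁻¹ * G * (θ * L1 + ε * L2 + L3) := by
      have : θ⁻¹ * G * (θ * L1) = G * L1 := by field_simp
      rw [add_assoc, mul_add, this]
      exact le_add_of_nonneg_right (by positivity)
    have n4 : J * L2 ≤ ε⁻¹ * J * (θ * L1 + ε * L2 + L3) := by
      have : ε⁻¹ * J * (ε * L2) = J * L2 := by field_simp
      rw [add_comm (θ * L1), add_assoc, mul_add, this]
      exact le_add_of_nonneg_right (by positivity)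
    have n5 := mul_le_mul_of_nonneg_left (k1.trans n3) (sq_nonneg c)
    have n6 := mul_le_mul_of_nonneg_left (n2.trans n4) (sq_nonneg P)
    refine (mul_le_mul_of_nonneg_left n1 (normSq_nonneg _)).trans ?_
    have := mul_le_mul_of_nonneg_left (add_le_add n5 n6) (normSq_nonneg (A (e.symm z)))
    linarith

end Pool.Agent.Lib.KB47
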