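import Pool.Agent.Lib.KC.Defs

/-! Project kb, block H: the gap between the main term and the error on a probability space. -/

open scoped Topology ENNReal
open Set MeasureTheory Filter

noncomputable section

namespace Pool.Agent.Lib.KB47

open Pool.Agent.Lib.NV6 Pool.Agent.Lib.KB14 Pool.Agent.Lib.KC

namespace Cr

variable {Ω : Type} [MeasurableSpace Ω] {ν : Measure Ω}

theorem mo_congr {f g : Ω → ℝ} {C : ℝ} (h : Mo ν f C) (e : f =ᵐ[ν] g) : Mo ν g C :=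
  ⟨h.1.congr e, integral_congr_ae e ▸ h.2⟩

theorem meas {t C : ℝ} (P : ℕ → Ω → ℝ) (j : ℕ) (h : ∀ b < j, Ua ν t C (P b)) :
    ∃ Q : ℕ → Ω → ℝ, (∀ b < j, Um ν t C (Q b)) ∧ ∀ᵐ y ∂ν, ∀ b, b < j → Q b y = P b y := by
  have k : ∀ b, ∃ q : Ω → ℝ, b < j → Measurable q ∧ P b =ᵐ[ν] q := fun b => by
    by_cases hb : b < j
    · exact ⟨(h b hb).1.mk _, fun _ => ⟨(h b hb).1.measurable_mk, (h b hb).1.ae_eq_mk⟩⟩
    · exact ⟨0, fun h => (hb h).elim⟩
  choose Q hQ using k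
  refine ⟨Q, fun b hb => ⟨(hQ b hb).1, ?_, mo_congr (h b hb).2.2 ?_⟩, ae_all_iff.2 fun b => ?_⟩
  · filter_upwards [(hQ b hb).2, (h b hb).2.1] with y h1 h2
    exact h1 ▸ h2
  · filter_upwards [(hQ b hb).2] with y h1
    rw [h1]
  · by_cases hb : b < j
    · exact (hQ b hb).2.mono fun y hy _ => hy.symm
    · exact Eventually.of_forall fun y h => (hb h).elim

theorem am4 {h w p q s : ℝ} (s0 : 0 < s) :
    h * w * p * q ≤ (4 * s ^ 3)⁻¹ * h ^ 4 + s / 4 * (w ^ 4 + p ^ 4 + q ^ 4) := by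
  obtain ⟨u, rfl⟩ : ∃ u, h = s * u := ⟨h / s, by field_simp⟩
  have e : (4 * s ^ 3)⁻¹ * (s * u) ^ 4 = s / 4 * u ^ 4 := by field_simp
  have k : u * w * p * q ≤ (u ^ 4 + (w ^ 4 + p ^ 4 + q ^ 4)) / 4 := by
    nlinarith [sq_nonneg (u * w - p * q), sq_nonneg (u ^ 2 - w ^ 2), sq_nonneg (p ^ 2 - q ^ 2)]
  rw [e]
  nlinarith [mul_le_mul_of_nonneg_left k s0.le]

theorem mn_b {b b' e e₃ θ : ℝ} (hb : 0 < b) (hb' : 0 < b') (e0 : 0 < e) (f0 : 0 < e₃) (θ0 : 0 < θ) :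
    0 ≤ mn θ e₃ e b b' ∧ mn θ e₃ e b b' ≤ e ^ (-θ) / e₃ ∧ 0 ≤ er θ e₃ e b b' := by
  have S0 : 0 < b + e₃ * b' + e := by positivity
  refine ⟨by unfold mn; positivity, ?_, by unfold er; positivity⟩
  have h1 : b * b' ≤ (b + e₃ * b' + e) ^ 2 / e₃ := by
    rw [le_div_iff₀ f0]
    nlinarith [mul_pos f0 hb', mul_pos hb (mul_pos f0 hb'), mul_pos hb e0, mul_pos e0 e0,
      mul_pos e0 (mul_pos f0 hb'), mul_pos hb hb, mul_pos (mul_pos f0 hb') (mul_pos f0 hb')]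
  have h2 : (b + e₃ * b' + e) ^ (-θ) ≤ e ^ (-θ) :=
    Real.rpow_le_rpow_of_nonpos e0 (by nlinarith [mul_pos f0 hb']) (by linarith)
  unfold mn
  rw [neg_add, Real.rpow_add S0, Real.rpow_neg S0.le, Real.rpow_two]
  calc _ ≤ (b + e₃ * b' + e) ^ 2 / e₃ * (((b + e₃ * b' + e) ^ 2)⁻¹ * e ^ (-θ)) := by gcongr
    _ = _ := by field_simp

theorem split {f g h : Ω → ℝ} {α : ℝ} (α0 : 0 ≤ α) (hg : Integrable g ν) (g0 : 0 ≤ᵐ[ν] g)
    (hf : ∀ᵐ y ∂ν, f y ≤ α * h y + g y) : ∫⁻ y, ENNReal.ofReal (f y) ∂ν ≤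
      ENNReal.ofReal α * ∫⁻ y, ENNReal.ofReal (h y) ∂ν + ENNReal.ofReal (∫ y, g y ∂ν) := by
  rw [ofReal_integral_eq_lintegral_ofReal hg g0, ← lintegral_const_mul' _ _ ENNReal.ofReal_ne_top,
    ← lintegral_add_right' _ hg.aemeasurable.ennreal_ofReal]
  refine lintegral_mono_ae (hf.mono fun y hy => (ENNReal.ofReal_le_ofReal hy).trans
    (ENNReal.ofReal_add_le.trans_eq ?_))
  rw [ENNReal.ofReal_mul α0]

end Cr

open Cr in
/-- The gap. -/
theorem core {t C c K θm : ℝ} (t0 : 0 < t) (c0 : 0 < c) (K0 : 0 < K) (m0 : 0 < θm) :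
    ∃ (θ e₃ e δ a : ℝ) (L : ℕ), 0 < θ ∧ θ ≤ θm ∧ 0 < e₃ ∧ e₃ ≤ 1 ∧ 0 < e ∧ e ≤ 1 ∧ 0 < δ ∧
    ∀ B : ℝ, 0 ≤ B → ∃ η > (0 : ℝ), ∀ (Ω : Type) [MeasurableSpace Ω] (ν : Measure Ω)
      [IsProbabilityMeasure ν] (P P' : ℕ → Ω → ℝ) (i i' j : ℕ) (x : ℝ) (ph b b' w : Ω → ℝ)
      (V T : Set Ω), i + L ≤ j → i' + L ≤ j → 0 ≤ x → 4 * x ≤ t →
      (∀ l < j, Ua ν t C (P l) ∧ Ua ν t C (P' l)) →
      (∀ l < L, ∀ᵐ y ∂ν, |P (i + l) y - P (i' + l) y| ≤ δ ∧ |P' (i + l) y - P' (i' + l) y| ≤ δ) →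
      (∀ᵐ y ∂ν, b y = Real.exp (be (fun l => P (i + l)) (fun l => P' (i + l)) (j - i) y) ∧
        b' y = Real.exp (be (fun l => P (i' + l)) (fun l => P' (i' + l)) (j - i') y) ∧
        w y = Real.exp (-(x * be P P' j y)) ∧ 0 ≤ ph y) →
      Mo ν (fun y => ph y ^ 4) C → MeasurableSet T → ν.real T ≤ η →
      c ≤ ν.real (V ∩ {y | c ≤ ph y}) →
      ENNReal.ofReal a < ∫⁻ y, ENNReal.ofReal (Tᶜ.indicator (fun y =>
        mn θ e₃ e (b y) (b' y) * w y * ph y) y) ∂ν ∧ ∀ ϖ : Ω → ℝ,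
      (Mo ν (fun y => ϖ y ^ 4) C → ENNReal.ofReal K * ∫⁻ y, ENNReal.ofReal
        ((er θ e₃ e (b y) (b' y) + T.indicator (fun _ => B) y * mn θ e₃ e (b y) (b' y)) *
          w y * ph y * ϖ y) ∂ν ≤ ENNReal.ofReal a) ∧
      (∫⁻ y, ENNReal.ofReal (ϖ y ^ 4) ∂ν ≠ ⊤ →
        ∫⁻ y, ENNReal.ofReal (mn θ e₃ e (b y) (b' y) * w y * ph y * ϖ y) ∂ν ≠ ⊤) := by
  have C1 : 0 < max C 1 := lt_max_of_lt_right one_pos
  obtain ⟨k, k0, hk⟩ := keyp (C := max C 1) t0 (half_pos c0)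
  obtain ⟨s, s0, hs⟩ : ∃ s : ℝ, 0 < s ∧ K * (s / 4 * (3 * max C 1)) = c * k / 8 :=
    ⟨c * k / (6 * K * max C 1), by positivity, by field_simp; ring⟩
  obtain ⟨η, η0, hη⟩ : ∃ η : ℝ, 0 < η ∧ K * (2 / s ^ 3 * η) = c * k / 8 :=
    ⟨c * k * s ^ 3 / (16 * K), by positivity, by field_simp; ring⟩
  have θ0 : 0 < min θm (min 1 (t / 16)) := by positivity
  obtain ⟨e₃, e, δ, f0, f1, e0, e1, δ0, hk⟩ := hk _ η θ0 ((min_le_right _ _).trans (min_le_left _ _))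
    ((min_le_right _ _).trans (min_le_right _ _)) η0
  obtain ⟨L, δ', d0, hL⟩ := twr (C := C) t0 δ0
  refine ⟨_, e₃, e, δ', c * k / 2, L, θ0, min_le_left _ _, f0, f1, e0, e1, d0, fun B B0 => ?_⟩
  generalize min θm (min 1 (t / 16)) = θ at *
  have M0 : 0 < e ^ (-θ) / e₃ := div_pos (Real.rpow_pos_of_pos e0 _) f0
  set G := (B * (e ^ (-θ) / e₃)) ^ 4 with hG
  have G0 : 0 ≤ G := by positivity
  refine ⟨min (c / 2) (η / (G + 1)), by positivity, ?_⟩
  intro Ω _ ν _ P P' i i' j x ph b b' w V T hi hi' x0 xt hP hc hb hph hT hη' hV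
  obtain ⟨Q, q1, q2⟩ := meas P j fun l hl => (hP l hl).1
  obtain ⟨Q', q1', q2'⟩ := meas P' j fun l hl => (hP l hl).2
  have u (i) : ∀ l < j - i, Um ν t C (Q (i + l)) ∧ Um ν t C (Q' (i + l)) := fun l hl =>
    ⟨q1 _ (by omega), q1' _ (by omega)⟩
  have eb (i) : ∀ᵐ y ∂ν, be (fun l => Q (i + l)) (fun l => Q' (i + l)) (j - i) y =
      be (fun l => P (i + l)) (fun l => P' (i + l)) (j - i) y := by
    filter_upwards [q2, q2'] with y h1 h2
    refine Finset.sum_congr rfl fun l hl => ?_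
    have := Finset.mem_range.1 hl
    simp only [h1 (i + l) (by omega), h2 (i + l) (by omega)]
  have e0' : ∀ᵐ y ∂ν, be Q Q' j y = be P P' j y := by simpa using eb 0
  have u0 : ∀ l < j, Um ν t C (Q l) ∧ Um ν t C (Q' l) := fun l hl => ⟨q1 l hl, q1' l hl⟩
  have pos : ∀ᵐ y ∂ν, 0 < b y ∧ 0 < b' y ∧ 0 < w y := hb.mono fun y hy =>
    ⟨hy.1 ▸ Real.exp_pos _, hy.2.1 ▸ Real.exp_pos _, hy.2.2.1 ▸ Real.exp_pos _⟩
  have w4 : Mo ν (fun y => w y ^ 4) (max C 1) := by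
    refine mo_congr (mom t0 (by positivity) xt u0).2 ?_
    filter_upwards [hb, e0'] with y h1 h2
    rw [h1.2.2.1, h2, ← Real.exp_nat_mul]
    congr 1
    push_cast
    ring
  have nm : NullMeasurableSet ({y | c ^ 4 ≤ ph y ^ 4} ∩ Tᶜ) ν :=
    (nullMeasurableSet_le aemeasurable_const hph.1.aemeasurable).inter hT.compl.nullMeasurableSet
  obtain ⟨k1, k2⟩ := hk Ω ν b b' w ({y | c ^ 4 ≤ ph y ^ 4} ∩ Tᶜ) pos
    (mo_congr (mom t0 t0.le le_rfl (u i)).1 (by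
      filter_upwards [hb, eb i] with y h1 h2
      rw [h1.1, h2, ← Real.exp_mul, mul_comm]))
    (mo_congr (mom t0 t0.le le_rfl (u i)).2 (by
      filter_upwards [hb, eb i] with y h1 h2
      rw [h1.1, h2, ← Real.exp_mul, mul_neg, mul_comm]))
    (mo_congr (mom t0 x0 (by linarith) u0).1 (by
      filter_upwards [hb, e0'] with y h1 h2
      rw [h1.2.2.1, h2, Real.exp_neg, inv_inv]))
    (mo_congr (hL Ω ν _ _ _ _ (j - i) (j - i') (by omega) (by omega) (u i) (u i') fun l hl => by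
      filter_upwards [q2, q2', hc l hl] with y h1 h2 h3
      simpa only [h1 (i + l) (by omega), h1 (i' + l) (by omega), h2 (i + l) (by omega),
        h2 (i' + l) (by omega)] using h3) (by
      filter_upwards [hb, eb i, eb i'] with y h1 h2 h3
      rw [h1.1, h1.2.1, h2, h3, Real.log_exp, Real.log_exp]))
    (by
      have h1 : V ∩ {y | c ≤ ph y} ⊆ ({y | c ^ 4 ≤ ph y ^ 4} ∩ Tᶜ) ∪ T := fun y hy =>
        (em (y ∈ T)).elim Or.inr fun h => Or.inl ⟨pow_le_pow_left₀ c0.le hy.2 4, h⟩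
      linarith [(measureReal_mono h1 (measure_ne_top ν _)).trans (measureReal_union_le _ _), min_le_left (c / 2)
        (η / (G + 1))])
  refine ⟨?_, fun ϖ => ⟨fun hϖ => ?_, fun hϖ => ?_⟩⟩
  · refine lt_of_lt_of_le ((ENNReal.ofReal_lt_ofReal_iff (mul_pos c0 k0)).2
      (half_lt_self (mul_pos c0 k0))) ?_
    rw [ENNReal.ofReal_mul c0.le]
    refine (mul_le_mul_right k1 _).trans ?_
    rw [← lintegral_const_mul' _ _ ENNReal.ofReal_ne_top, ← lintegral_indicator₀ nm]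
    refine lintegral_mono_ae ?_
    filter_upwards [hb, pos] with y h1 h2
    by_cases hy : y ∈ {y | c ^ 4 ≤ ph y ^ 4} ∩ Tᶜ
    · rw [indicator_of_mem hy, indicator_of_mem hy.2, ← ENNReal.ofReal_mul c0.le, mul_comm]
      exact ENNReal.ofReal_le_ofReal (mul_le_mul_of_nonneg_left
        ((pow_le_pow_iff_left₀ c0.le h1.2.2.2 (by norm_num)).1 hy.1)
        (mul_nonneg (mn_b h2.1 h2.2.1 e0 f0 θ0).1 h2.2.2.le))
    · rw [indicator_of_notMem hy]
      exact zero_le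
  · have i1 : Integrable (fun y => 2 / s ^ 3 * T.indicator (fun _ => G) y) ν :=
      ((integrable_const G).indicator hT).const_mul _
    have i2 : Integrable (fun y => s / 4 * (w y ^ 4 + ph y ^ 4 + ϖ y ^ 4)) ν :=
      ((w4.1.add hph.1).add hϖ.1).const_mul _
    have a0 : 0 ≤ 2 / s ^ 3 := by positivity
    refine (mul_le_mul_right (split (h := fun y => er θ e₃ e (b y) (b' y) ^ 4) a0 (i1.add i2)
      (Eventually.of_forall fun y => ?_) ?_) _).trans ?_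
    · have : 0 ≤ T.indicator (fun _ => G) y := indicator_nonneg (fun _ _ => G0) y
      show 0 ≤ 2 / s ^ 3 * T.indicator (fun _ => G) y + s / 4 * (w y ^ 4 + ph y ^ 4 + ϖ y ^ 4)
      positivity
    · filter_upwards [pos] with y h2
      obtain ⟨n1, n2, n3⟩ := mn_b h2.1 h2.2.1 e0 f0 θ0
      have n4 : 0 ≤ T.indicator (fun _ => B) y := indicator_nonneg (fun _ _ => B0) y
      have n5 : (T.indicator (fun _ => B) y * mn θ e₃ e (b y) (b' y)) ^ 4 ≤
          T.indicator (fun _ => G) y := by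
        by_cases hy : y ∈ T
        · rw [indicator_of_mem hy, indicator_of_mem hy]
          exact pow_le_pow_left₀ (mul_nonneg B0 n1) (mul_le_mul_of_nonneg_left n2 B0) 4
        · simp [indicator_of_notMem hy]
      have n6 := (add_pow_le n3 (mul_nonneg n4 n1) 4).trans
        (mul_le_mul_of_nonneg_left (add_le_add le_rfl n5) (by norm_num))
      refine (am4 s0).trans ?_
      have n7 := mul_le_mul_of_nonneg_left n6 (by positivity : 0 ≤ (4 * s ^ 3)⁻¹)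
      have n8 : (4 * s ^ 3)⁻¹ * 2 ^ (4 - 1) = 2 / s ^ 3 := by
        norm_num
        field_simp
        norm_num
      rw [← mul_assoc, n8] at n7
      simp only [Pi.add_apply]
      linarith
    · have j1 : ∫ y, (2 / s ^ 3 * T.indicator (fun _ => G) y +
          s / 4 * (w y ^ 4 + ph y ^ 4 + ϖ y ^ 4)) ∂ν ≤ 2 / s ^ 3 * η + s / 4 * (3 * max C 1) := by
        rw [integral_add i1 i2, integral_const_mul, integral_const_mul, integral_indicator_const _ hT,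
          integral_add (f := fun y => w y ^ 4 + ph y ^ 4) (w4.1.add hph.1) hϖ.1,
          integral_add w4.1 hph.1, smul_eq_mul]
        have j2 : ν.real T * G ≤ η := by
          have := (le_div_iff₀ (by positivity)).1 (hη'.trans (min_le_right _ _))
          nlinarith [measureReal_nonneg (μ := ν) (s := T)]
        have := le_max_left C 1
        exact add_le_add (mul_le_mul_of_nonneg_left j2 a0) (mul_le_mul_of_nonneg_left
          (by linarith [w4.2, hph.2, hϖ.2]) (by positivity))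
      refine (mul_le_mul_right (add_le_add (mul_le_mul_right k2 _)
        (ENNReal.ofReal_le_ofReal j1)) _).trans ?_
      rw [← ENNReal.ofReal_mul a0, ← ENNReal.ofReal_add (by positivity) (by positivity),
        ← ENNReal.ofReal_mul K0.le]
      refine ENNReal.ofReal_le_ofReal ?_
      rw [mul_add, mul_add, hs, hη]
      linarith [mul_pos c0 k0]
  · have i2 : Integrable (fun y => (4 * 1 ^ 3)⁻¹ * (e ^ (-θ) / e₃) ^ 4 +
        1 / 4 * (w y ^ 4 + ph y ^ 4)) ν := (integrable_const _).add ((w4.1.add hph.1).const_mul _)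
    refine ne_top_of_le_ne_top ?_ (split (α := 1 / 4) (h := fun y => ϖ y ^ 4) (by norm_num) i2
      (Eventually.of_forall fun y => by positivity) ?_)
    · exact ENNReal.add_ne_top.2 ⟨ENNReal.mul_ne_top ENNReal.ofReal_ne_top hϖ, ENNReal.ofReal_ne_top⟩
    · filter_upwards [pos] with y h2
      obtain ⟨n1, n2, -⟩ := mn_b h2.1 h2.2.1 e0 f0 θ0
      have := pow_le_pow_left₀ n1 n2 4
      refine (am4 one_pos).trans ?_
      linarith

end Pool.Agent.Lib.KB47
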