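import Pool.Agent.Lib.KB47.Test
import Pool.Agent.Lib.KH.B_KIT
import Pool.Agent.Lib.KB14.Key

/-! Project kb, block H: the densities of the test function. -/

open scoped Topology ContDiff ComplexOrder Matrix
open Set Complex Filter MeasureTheory

noncomputable section

namespace Pool.Agent.Lib.KB47

open Pool.Agent.Lib.HS32 Pool.Agent.Lib.KH Pool.Agent.Lib.KB14

theorem dens {b b' e₃ e θ a Λ : ℝ} (hb : 0 < b) (hb' : 0 < b') (f0 : 0 < e₃) (e0 : 0 < e)
    (h : a * b = b' * Λ) :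
    (b / (b + (e₃ * b' + e))) ^ 2 * a * Real.exp (-(θ * Real.log (b + e₃ * b' + e))) =
      mn θ e₃ e b b' * Λ ∧
    θ⁻¹ * (b * (e₃ * b' + e) / (b + (e₃ * b' + e)) ^ 2) * a *
      Real.exp (-(θ * Real.log (b + e₃ * b' + e))) = er θ e₃ e b b' * Λ := by
  have S0 : 0 < b + e₃ * b' + e := by positivity
  have e1 : (b + e₃ * b' + e) ^ (-(2 + θ)) =
      ((b + e₃ * b' + e) ^ 2)⁻¹ * Real.exp (-(θ * Real.log (b + e₃ * b' + e))) := by
    rw [neg_add, Real.rpow_add S0, Real.rpow_neg S0.le, Real.rpow_two, Real.rpow_def_of_pos S0,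
      mul_neg, mul_comm θ]
  obtain rfl : a = b' * Λ / b := eq_div_of_mul_eq hb.ne' h
  rw [mn, er, e1, ← add_assoc]
  constructor <;> field_simp

/-- The test function: data for the equation and the two densities. -/
theorem test {δ : ℝ} (δ0 : 0 < δ) : ∃ C : ℝ, 0 ≤ C ∧ ∀ (n : ℕ) (M : Mf n) (O : Set M.X) (ι : Type)
    [Fintype ι] (σ : ι → M.X → ℂ) (A : M.X → ℂ) (b b' Λ R : M.X → ℝ) (θ ε e₃ e : ℝ), IsOpen O →
    0 < θ → 0 < ε → 0 < e₃ → 0 < e → (∀ i, HoK M O (σ i)) → HoK M O A →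
    (∀ x ∈ O, 0 < b x ∧ 0 < b' x ∧ normSq (A x) * b x = b' x * Λ x) →
    PsK M O (fun x => Real.log (b x)) → PsK M O (fun x => Real.log (b' x)) → PsK M O R →
    ∃ (Φ β : M.X → ℝ) (Γ : M.X → ℂ), Da M O Φ β Γ ∧
      (∀ μ : Measure M.X, AEMeasurable β (μ.restrict O)) ∧ ∀ x ∈ O,
      Φ x = θ * Real.log (b x + e₃ * b' x + e) + ε * Real.log (∑ i, normSq (σ i x) + 1) + R x ∧
      normSq (Γ x) * Real.exp (-Φ x) = ct δ (∑ i, normSq (σ i x)) ^ 2 * mn θ e₃ e (b x) (b' x) *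
        (Λ x * Real.exp (-(ε * Real.log (∑ i, normSq (σ i x) + 1) + R x))) ∧
      β x * Real.exp (-Φ x) = 2 * (ct δ (∑ i, normSq (σ i x)) ^ 2 * er θ e₃ e (b x) (b' x) +
        ε⁻¹ * (Icc δ (2 * δ)).indicator (fun _ => C) (∑ i, normSq (σ i x)) *
          mn θ e₃ e (b x) (b' x)) *
        (Λ x * Real.exp (-(ε * Real.log (∑ i, normSq (σ i x) + 1) + R x))) := by
  obtain ⟨C, C0, hC⟩ := dah δ0
  refine ⟨C, C0, fun n M O ι _ σ A b b' Λ R θ ε e₃ e hO θ0 ε0 f0 e0 hσ hA h hb hb' hR => ?_⟩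
  have hw := (hb'.add (psK_const (Real.log e₃))).two (psK_const (Real.log e))
  refine ⟨_, _, _, hC n M O ι σ A _ _ R θ ε θ0 ε0 hσ hA hb hw hR, fun μ => ?_, fun x hx => ?_⟩
  · have m (f : M.X → ℝ) (hf : SmK M O f) : AEMeasurable f (μ.restrict O) :=
      (KIT.cont hf).aemeasurable hO.measurableSet
    have m1 := m _ hb.sm
    have m2 := m _ hw.sm
    have m3 := m (fun x => ∑ i, normSq (σ i x)) fun e he z hz ho =>
      (sq_rule (fun i => hσ i e he z hz ho) 0).1
    have m4 := m (fun x => normSq (A x)) fun e he z hz ho =>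
      BHOL.cd_nsq (BHOL.smooth (hA e he z hz ho))
    have m5 := (ct_cd δ).continuous.measurable.comp_aemeasurable m3
    have m6 := ((measurable_const (a := C)).indicator
      (measurableSet_Icc (a := δ) (b := 2 * δ))).comp_aemeasurable m3
    have m7 := Real.measurable_exp.comp_aemeasurable m1
    have m8 := Real.measurable_exp.comp_aemeasurable m2
    exact (m4.const_mul 2).mul (((m5.pow_const 2).mul (((m7.mul m8).div
      ((m7.add m8).pow_const 2)).const_mul _)).add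
      (((m7.div (m7.add m8)).pow_const 2).mul (m6.const_mul _)))
  · obtain ⟨b0, b1, b2⟩ := h x hx
    have e1 : Real.exp (Real.log (Real.exp (Real.log (b' x) + Real.log e₃) +
        Real.exp (Real.log e))) = e₃ * b' x + e := by
      rw [Real.exp_log (by positivity), Real.exp_add, Real.exp_log b1, Real.exp_log f0,
        Real.exp_log e0, mul_comm]
    obtain ⟨d1, d2⟩ := dens (θ := θ) b0 b1 f0 e0 b2
    simp only [e1, Real.exp_log b0]
    rw [← add_assoc (b x), add_assoc (θ * _), neg_add, Real.exp_add, normSq_mul, normSq_ofReal]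
    rw [← add_assoc (b x)] at d1 d2
    refine ⟨rfl, ?_, ?_⟩
    · linear_combination ct δ (∑ i, normSq (σ i x)) ^ 2 *
        Real.exp (-(ε * Real.log (∑ i, normSq (σ i x) + 1) + R x)) * d1
    · linear_combination 2 * Real.exp (-(ε * Real.log (∑ i, normSq (σ i x) + 1) + R x)) *
        (ct δ (∑ i, normSq (σ i x)) ^ 2 * d2 + ε⁻¹ *
          (Icc δ (2 * δ)).indicator (fun _ => C) (∑ i, normSq (σ i x)) * d1)

end Pool.Agent.Lib.KB47
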