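import Pool.Agent.Lib.KH.B_MAX

/-! Project kb, block H: plurisubharmonic functions at a point. -/

open scoped Topology ContDiff ComplexOrder Matrix
open Set Complex Filter

noncomputable section

namespace Pool.Agent.Lib.KB47

open Pool.Agent.Lib.SV (E)
open Pool.Agent.Lib.HS32 Pool.Agent.Lib.KH Pool.Agent.Lib.KH.MAX

/-- A convex function that vanishes on the negative axis. -/
def xi (t : ℝ) : ℝ := t * expNegInvGlue t

theorem xi_cd : ContDiff ℝ ∞ xi := contDiff_id.mul expNegInvGlue.contDiff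

theorem xi_zero {t : ℝ} (h : t ≤ 0) : xi t = 0 := by
  rw [xi, expNegInvGlue.zero_of_nonpos h, mul_zero]

theorem xi_d (t : ℝ) : deriv xi t = (1 + t⁻¹) * expNegInvGlue t := by
  have h := expNegInvGlue.hasDerivAt_polynomial_eval_inv_mul 1 t
  simp only [Polynomial.eval_one, one_mul, Polynomial.derivative_one, sub_zero, mul_one,
    Polynomial.eval_pow, Polynomial.eval_X] at h
  refine ((hasDerivAt_id t).mul h).deriv.trans ?_
  rcases eq_or_ne t 0 with rfl | h0
  · simp
  · simp only [id]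
    field_simp

theorem xi_dd (t : ℝ) : 0 ≤ deriv (deriv xi) t := by
  have h := expNegInvGlue.hasDerivAt_polynomial_eval_inv_mul (1 + Polynomial.X) t
  simp only [Polynomial.eval_add, Polynomial.eval_one, Polynomial.eval_X, map_add,
    Polynomial.derivative_one, Polynomial.derivative_X, zero_add, add_sub_cancel_left,
    Polynomial.eval_mul, Polynomial.eval_pow] at h
  rw [funext xi_d, h.deriv]
  rcases le_or_gt t 0 with h0 | h0
  · rw [expNegInvGlue.zero_of_nonpos h0, mul_zero]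
  · have := expNegInvGlue.nonneg t
    positivity

theorem xi_b (t : ℝ) : 0 ≤ deriv xi t ∧ deriv xi t ≤ 1 ∧ 0 ≤ xi t ∧ t - 1 ≤ xi t ∧
    xi t ≤ max t 0 := by
  rw [xi_d]
  rcases le_or_gt t 0 with h0 | h0
  · rw [xi_zero h0, expNegInvGlue.zero_of_nonpos h0, mul_zero]
    exact ⟨le_rfl, zero_le_one, le_rfl, by linarith, le_max_right _ _⟩
  · have e : expNegInvGlue t = Real.exp (-t⁻¹) := by simp [expNegInvGlue, h0.not_ge]
    have p := Real.exp_pos (-t⁻¹)
    have i0 := inv_pos.2 h0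
    have h1 := Real.add_one_le_exp t⁻¹
    have h2 := Real.add_one_le_exp (-t⁻¹)
    have h3 : Real.exp t⁻¹ * Real.exp (-t⁻¹) = 1 := by rw [← Real.exp_add, add_neg_cancel, Real.exp_zero]
    have h4 : Real.exp (-t⁻¹) ≤ 1 := Real.exp_le_one_iff.2 (by linarith)
    have h5 : t * t⁻¹ = 1 := mul_inv_cancel₀ h0.ne'
    rw [xi, e]
    refine ⟨by positivity, by nlinarith, by positivity, by nlinarith, le_max_of_le_left (by nlinarith)⟩

variable {n : ℕ} {u w : E n → ℝ} {f : E n → ℂ} {z : E n}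

/-- Smooth with non-negative Levi form. -/
def Ps (u : E n → ℝ) (z : E n) : Prop := ContDiffAt ℝ ∞ u z ∧ ∀ v, 0 ≤ lw u z v

theorem lw_add (hu : ContDiffAt ℝ ∞ u z) (hw : ContDiffAt ℝ ∞ w z) (v : E n) :
    lw (fun x => u x + w x) z v = lw u z v + lw w z v := by
  simp only [lw, ofReal_add, hess_add (cd_ofReal hu) (cd_ofReal hw), q_add]

theorem dw_add (hu : ContDiffAt ℝ ∞ u z) (hw : ContDiffAt ℝ ∞ w z) (v : E n) :
    dw (fun x => u x + w x) z v = dw u z v + dw w z v := by
  simp only [dw, ofReal_add, dz_add (cd_diff (cd_ofReal hu)) (cd_diff (cd_ofReal hw)),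
    add_mul, Finset.sum_add_distrib]

theorem lw_congr (e : u =ᶠ[𝓝 z] w) (v : E n) : lw u z v = lw w z v := by
  rw [lw, lw, hess_congr (e.mono fun x hx => congrArg ofReal hx)]

theorem lw_const (c : ℝ) (v : E n) : lw (fun _ => c) z v = 0 := by
  have : hess (fun _ : E n => (c : ℂ)) z = 0 := by
    ext i j
    simp [show dz j (fun _ : E n => (c : ℂ)) = fun _ => 0 from funext fun _ => dz_const _]
  simp [lw, nq, this]

theorem lw_comp {φ : ℝ → ℝ} (hφ : ContDiff ℝ ∞ φ) (hu : ContDiffAt ℝ ∞ u z) (v : E n) :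
    lw (fun x => φ (u x)) z v =
      deriv φ (u z) * lw u z v + deriv (deriv φ) (u z) * normSq (dw u z v) := by
  rw [lw, BLAP.hess_comp hu fun _ => hφ.contDiffAt, q_add, q_smul, q_smul, q_dd hu, lw]

theorem dw_comp {φ : ℝ → ℝ} {c : ℝ} (hφ : HasDerivAt φ c (u z)) (hu : ContDiffAt ℝ ∞ u z)
    (v : E n) : dw (fun x => φ (u x)) z v = c * dw u z v := by
  simp only [dw, Finset.mul_sum, dz_comp_real hφ (hu.differentiableAt (by simp)), mul_assoc]

theorem Ps.congr (h : Ps u z) (e : w =ᶠ[𝓝 z] u) : Ps w z :=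
  ⟨h.1.congr_of_eventuallyEq e, fun v => lw_congr e v ▸ h.2 v⟩

theorem ps_const (c : ℝ) : Ps (fun _ => c) z := ⟨contDiffAt_const, fun v => (lw_const c v).ge⟩

theorem Ps.add (hu : Ps u z) (hw : Ps w z) : Ps (fun x => u x + w x) z :=
  ⟨hu.1.add hw.1, fun v => lw_add hu.1 hw.1 v ▸ add_nonneg (hu.2 v) (hw.2 v)⟩

theorem Ps.mul (hu : Ps u z) {c : ℝ} (hc : 0 ≤ c) : Ps (fun x => c * u x) z :=
  ⟨contDiffAt_const.mul hu.1, fun v => mul_rule c hu.1 v ▸ mul_nonneg hc (hu.2 v)⟩

theorem ps_log (h : HolN f z) (h0 : f z ≠ 0) (c : ℝ) :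
    Ps (fun x => c * Real.log (normSq (f x))) z := by
  obtain ⟨h1, h2, -⟩ := ((stHOL n f z).2.2 h).2.2.2 h0
  refine ⟨contDiffAt_const.mul h1, fun v => ?_⟩
  rw [mul_rule c h1, lw, h2]
  simp [nq]

theorem Ps.max (hu : Ps u z) (hw : Ps w z) : Ps (fun x => u x + xi (w x - u x)) z := by
  have h1 : ContDiffAt ℝ ∞ (fun x => w x - u x) z := hw.1.sub hu.1
  have h2 : ContDiffAt ℝ ∞ (fun x => xi (w x - u x)) z := xi_cd.contDiffAt.comp z h1
  refine ⟨hu.1.add h2, fun v => ?_⟩
  have h3 := lw_add h1 hu.1 v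
  simp only [sub_add_cancel] at h3
  obtain ⟨b1, b2, -⟩ := xi_b (w z - u z)
  have b3 := mul_nonneg (xi_dd (w z - u z)) (normSq_nonneg (dw (fun x => w x - u x) z v))
  rw [lw_add hu.1 h2, lw_comp xi_cd h1]
  have := hu.2 v
  have := hw.2 v
  have e : lw (fun x => w x - u x) z v = lw w z v - lw u z v := by
    rw [show lw w z v = lw (fun x => w x) z v from rfl, h3]
    ring
  rw [e]
  nlinarith

/-- The derivative of a holomorphic function on a vector. -/
def dh (f : E n → ℂ) (z v : E n) : ℂ := ∑ j, dz j f z * v j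

theorem nsq_rule (h : HolN f z) (v : E n) :
    lw (fun x => normSq (f x)) z v = normSq (dh f z v) ∧
      dw (fun x => normSq (f x)) z v = star (f z) * dh f z v := by
  have hs := BHOL.smooth h
  have hd := cd_diff hs
  have k (w) (hw : DifferentiableAt ℂ f w) (j : Fin n) :
      dz j (fun x => ((normSq (f x) : ℝ) : ℂ)) w = dz j f w * star (f w) := by
    have hr : DifferentiableAt ℝ f w := hw.restrictScalars ℝ
    rw [BHOL.nsq, dz_mul hr (diff_star hr), dz_star hr, BHOL.dzb_zero hw]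
    simp
  constructor
  · have e (i j : Fin n) : hess (fun x => ((normSq (f x) : ℝ) : ℂ)) z i j =
        star (dz i f z) * dz j f z := by
      rw [hess_apply, dzb_congr (h.mono fun w hw => k w hw j),
        dzb_mul (cd_diff (cd_dz hs j)) (diff_star hd), dzb_star hd,
        BHOL.dzb_zero (BHOL.hol_dz h j).self_of_nhds]
      ring
    have : star v ⬝ᵥ hess (fun x => ((normSq (f x) : ℝ) : ℂ)) z *ᵥ v =
        star (dh f z v) * dh f z v := by
      simp only [dh, dotProduct, Matrix.mulVec, e, star_sum, star_mul', Pi.star_apply,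
        Finset.sum_mul, Finset.mul_sum]
      rw [Finset.sum_comm]
      exact Finset.sum_congr rfl fun i _ => Finset.sum_congr rfl fun j _ => by ring
    rw [lw, nq, this, star_def, ← normSq_eq_conj_mul_self, ofReal_re]
  · simp only [dw, dh, k z h.self_of_nhds, Finset.mul_sum]
    exact Finset.sum_congr rfl fun i _ => by ring

theorem sq_rule {ι : Type} [Fintype ι] {f : ι → E n → ℂ} (h : ∀ i, HolN (f i) z) (v : E n) :
    ContDiffAt ℝ ∞ (fun x => ∑ i, normSq (f i x)) z ∧ 0 ≤ lw (fun x => ∑ i, normSq (f i x)) z v ∧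
      normSq (dw (fun x => ∑ i, normSq (f i x)) z v) ≤
        (∑ i, normSq (f i z)) * lw (fun x => ∑ i, normSq (f i x)) z v := by
  have hc := fun i => BHOL.cd_nsq (BHOL.smooth (h i))
  obtain ⟨s1, s2⟩ := sum_rule Finset.univ hc v
  rw [s1, s2, Finset.sum_congr rfl fun i _ => (nsq_rule (h i) v).1,
    Finset.sum_congr rfl fun i _ => (nsq_rule (h i) v).2]
  refine ⟨ContDiffAt.sum fun i _ => hc i, Finset.sum_nonneg fun i _ => normSq_nonneg _, ?_⟩
  simp only [normSq_eq_norm_sq]
  refine le_trans ?_ (Finset.sum_mul_sq_le_sq_mul_sq Finset.univ (fun i => ‖f i z‖)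
    fun i => ‖dh (f i) z v‖)
  refine pow_le_pow_left₀ (norm_nonneg _) ((norm_sum_le _ _).trans_eq ?_) 2
  simp only [norm_mul, norm_star]

theorem log_rule (hu : ContDiffAt ℝ ∞ u z) (h0 : 0 < u z) (v : E n) :
    ContDiffAt ℝ ∞ (fun x => Real.log (u x)) z ∧
      u z ^ 2 * lw (fun x => Real.log (u x)) z v = u z * lw u z v - normSq (dw u z v) := by
  have hL := hu.log h0.ne'
  have e : u =ᶠ[𝓝 z] fun x => Real.exp (Real.log (u x)) :=
    (hu.continuousAt.eventually (lt_mem_nhds h0)).mono fun x hx => (Real.exp_log hx).symm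
  obtain ⟨r1, -⟩ := exp_rule hL (fun _ => rfl) v
  have r2 := dw_comp (Real.hasDerivAt_log h0.ne') hu v
  rw [← lw_congr e, Real.exp_log h0, r2, normSq_mul, normSq_ofReal] at r1
  refine ⟨hL, ?_⟩
  rw [r1]
  field_simp
  ring

theorem ps_lsq {ι : Type} [Fintype ι] {f : ι → E n → ℂ} (h : ∀ i, HolN (f i) z) {r : ℝ}
    (r0 : 0 ≤ r) (hr : 0 < ∑ i, normSq (f i z) + r) :
    Ps (fun x => Real.log (∑ i, normSq (f i x) + r)) z ∧ ∀ v,
      r * normSq (dw (fun x => ∑ i, normSq (f i x)) z v) ≤ (∑ i, normSq (f i z)) *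
        (∑ i, normSq (f i z) + r) ^ 2 * lw (fun x => Real.log (∑ i, normSq (f i x) + r)) z v := by
  have h1 := (sq_rule h 0).1
  have k (v) : (∑ i, normSq (f i z) + r) ^ 2 *
      lw (fun x => Real.log (∑ i, normSq (f i x) + r)) z v =
      (∑ i, normSq (f i z) + r) * lw (fun x => ∑ i, normSq (f i x)) z v -
        normSq (dw (fun x => ∑ i, normSq (f i x)) z v) := by
    rw [(log_rule (h1.add contDiffAt_const) hr v).2, lw_add h1 contDiffAt_const, lw_const,
      dw_add h1 contDiffAt_const]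
    simp [dw]
  have S0 : 0 ≤ ∑ i, normSq (f i z) := Finset.sum_nonneg fun i _ => normSq_nonneg _
  refine ⟨⟨(log_rule (h1.add contDiffAt_const) hr 0).1, fun v => ?_⟩, fun v => ?_⟩
  · obtain ⟨-, a1, a2⟩ := sq_rule h v
    refine le_of_mul_le_mul_left ?_ (pow_pos hr 2)
    rw [k, mul_zero]
    nlinarith
  · obtain ⟨-, a1, a2⟩ := sq_rule h v
    rw [mul_assoc, k]
    nlinarith

theorem two (hu : Ps u z) (hw : Ps w z) :
    Ps (fun x => Real.log (Real.exp (u x) + Real.exp (w x))) z ∧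
      ContDiffAt ℝ ∞ (fun x => Real.exp (u x) / (Real.exp (u x) + Real.exp (w x))) z ∧ ∀ v,
      normSq (dw (fun x => Real.exp (u x) / (Real.exp (u x) + Real.exp (w x))) z v) ≤
        Real.exp (u z) * Real.exp (w z) / (Real.exp (u z) + Real.exp (w z)) ^ 2 *
          lw (fun x => Real.log (Real.exp (u x) + Real.exp (w x))) z v := by
  have hp := Real.exp_pos (u z)
  have hq := Real.exp_pos (w z)
  have hS := hu.1.exp.add hw.1.exp
  have h0 := add_pos hp hq
  have k (v) : Real.exp (u z) * Real.exp (w z) * normSq (dw u z v - dw w z v) ≤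
      (Real.exp (u z) + Real.exp (w z)) ^ 2 *
        lw (fun x => Real.log (Real.exp (u x) + Real.exp (w x))) z v := by
    obtain ⟨a1, a2⟩ := exp_rule hu.1 (fun _ => rfl) v
    obtain ⟨b1, b2⟩ := exp_rule hw.1 (fun _ => rfl) v
    rw [(log_rule hS h0 v).2, lw_add hu.1.exp hw.1.exp, dw_add hu.1.exp hw.1.exp, a1, a2, b1, b2]
    have := mul_nonneg h0.le (add_nonneg (mul_nonneg hp.le (hu.2 v)) (mul_nonneg hq.le (hw.2 v)))
    simp only [normSq_apply, add_re, add_im, sub_re, sub_im, re_ofReal_mul, im_ofReal_mul]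
    nlinarith
  refine ⟨⟨(log_rule hS h0 0).1, fun v => ?_⟩, hu.1.exp.div hS h0.ne', fun v => ?_⟩
  · refine le_of_mul_le_mul_left ?_ (pow_pos h0 2)
    rw [mul_zero]
    exact le_trans (mul_nonneg (mul_pos hp hq).le (normSq_nonneg _)) (k v)
  · have e : (fun x => Real.exp (u x) / (Real.exp (u x) + Real.exp (w x))) =
        fun x => (fun t => (1 + Real.exp t)⁻¹) (w x + -1 * u x) := funext fun x => by
      have := Real.exp_pos (u x)
      have := Real.exp_pos (w x)
      simp only [neg_one_mul, ← sub_eq_add_neg, Real.exp_sub]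
      field_simp
    have c1 : ContDiffAt ℝ ∞ (fun x => -1 * u x) z := contDiffAt_const.mul hu.1
    have d1 : HasDerivAt (fun t => (1 + Real.exp t)⁻¹) _ (w z + -1 * u z) :=
      ((Real.hasDerivAt_exp _).const_add 1).fun_inv (by positivity)
    have d2 : dw (fun x => -1 * u x) z v = ((-1 * 1 : ℝ) : ℂ) * dw u z v :=
      dw_comp ((hasDerivAt_id (u z)).const_mul (-1 : ℝ)) hu.1 v
    rw [e, dw_comp d1 (hw.1.add c1), dw_add hw.1 c1, d2, normSq_mul, normSq_ofReal]
    have e2 : dw w z v + ((-1 * 1 : ℝ) : ℂ) * dw u z v = -(dw u z v - dw w z v) := by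
      push_cast
      ring
    have e3 : -Real.exp (w z + -1 * u z) / (1 + Real.exp (w z + -1 * u z)) ^ 2 =
        -(Real.exp (u z) * Real.exp (w z) / (Real.exp (u z) + Real.exp (w z)) ^ 2) := by
      simp only [neg_one_mul, ← sub_eq_add_neg, Real.exp_sub]
      field_simp
    rw [e2, normSq_neg, e3, neg_mul_neg, mul_assoc]
    refine mul_le_mul_of_nonneg_left ?_ (by positivity)
    rw [div_mul_eq_mul_div, div_le_iff₀ (pow_pos h0 2), mul_comm (lw _ z v)]
    exact k v

theorem dbv_mul {A : E n → ℂ} (hA : HolN A z) (hu : ContDiffAt ℝ ∞ u z) (v : E n) :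
    normSq (dbv (fun x => (u x : ℂ) * A x) z v) = normSq (A z) * normSq (dw u z v) := by
  have h := fun j : Fin n => star_dz_ofReal (j := j) (cd_diff (cd_ofReal hu))
  have e : dbv (fun x => (u x : ℂ) * A x) z v = A z * star (dw u z v) := by
    simp only [dbv, dw, dzb_mul (cd_diff (cd_ofReal hu)) (cd_diff (BHOL.smooth hA)),
      BHOL.dzb_zero hA.self_of_nhds, star_sum, star_mul', h, Finset.mul_sum]
    exact Finset.sum_congr rfl fun i _ => by ring
  rw [e, normSq_mul, star_def, normSq_conj]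

theorem dw_mul (hu : ContDiffAt ℝ ∞ u z) (hw : ContDiffAt ℝ ∞ w z) (v : E n) :
    dw (fun x => u x * w x) z v = u z * dw w z v + w z * dw u z v := by
  simp only [dw, ofReal_mul, dz_mul (cd_diff (cd_ofReal hu)) (cd_diff (cd_ofReal hw)),
    Finset.mul_sum, ← Finset.sum_add_distrib]
  exact Finset.sum_congr rfl fun i _ => by ring

end Pool.Agent.Lib.KB47
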