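import Pool.Agent.Lib.KC.Blue
import Pool.Agent.Lib.KB47.Test

/-! Project kb, block H: transfer to the normalised measures and pointwise identities. -/

open scoped Topology ENNReal
open Set MeasureTheory Complex Filter

noncomputable section

namespace Pool.Agent.Lib.KB47.Tra

open Pool.Agent.Lib.SV (E nsq)
open Pool.Agent.Lib.HS32 Pool.Agent.Lib.KH Pool.Agent.Lib.KC

section

variable {ι : Type} [Fintype ι]

theorem n0 (v : ι → ℂ) : 0 ≤ nsq v := Finset.sum_nonneg fun _ _ => normSq_nonneg _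

theorem le_nsq (v : ι → ℂ) : ‖v‖ ^ 2 ≤ nsq v := by
  refine (Real.le_sqrt (norm_nonneg _) (n0 v)).1
    ((pi_norm_le_iff_of_nonneg (Real.sqrt_nonneg _)).2 fun j => Real.le_sqrt_of_sq_le ?_)
  rw [← normSq_eq_norm_sq]
  exact Finset.single_le_sum (f := fun j => normSq (v j)) (fun _ _ => normSq_nonneg _)
    (Finset.mem_univ j)

theorem nsq_le (v : ι → ℂ) : nsq v ≤ Fintype.card ι * ‖v‖ ^ 2 := by
  have h : ∀ j ∈ (Finset.univ : Finset ι), normSq (v j) ≤ ‖v‖ ^ 2 := fun j _ => by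
    rw [Complex.normSq_eq_norm_sq]
    exact pow_le_pow_left₀ (norm_nonneg _) (norm_le_pi_norm v j) 2
  simpa [nsq] using Finset.sum_le_card_nsmul _ _ _ h

theorem tri (u v w : ι → ℂ) (h : ∀ j, w j = u j - v j ∨ w j = u j + v j) :
    nsq w ≤ 2 * nsq u + 2 * nsq v := by
  simp only [nsq, Finset.mul_sum, ← Finset.sum_add_distrib]
  refine Finset.sum_le_sum fun j _ => ?_
  rcases h j with h | h <;> rw [h] <;> simp only [normSq_apply, sub_re, sub_im, add_re, add_im] <;>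
    nlinarith [sq_nonneg ((u j).re + (v j).re), sq_nonneg ((u j).im + (v j).im),
      sq_nonneg ((u j).re - (v j).re), sq_nonneg ((u j).im - (v j).im)]

theorem lg (u v : ι → ℂ) :
    |Real.log (nsq (u - v) + 1) - Real.log (1 + nsq u)| ≤ Real.log (2 + 2 * nsq v) := by
  have h1 := tri u v (u - v) fun _ => Or.inl rfl
  have h2 := tri (u - v) v u fun j => Or.inr (sub_add_cancel _ _).symm
  have a := n0 u
  have b := n0 v
  have c := n0 (u - v)
  rw [abs_sub_le_iff, sub_le_iff_le_add, sub_le_iff_le_add,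
    ← Real.log_mul (by positivity) (by positivity), ← Real.log_mul (by positivity) (by positivity)]
  exact ⟨Real.log_le_log (by positivity) (by nlinarith [mul_nonneg a b]),
    Real.log_le_log (by positivity) (by nlinarith [mul_nonneg c b])⟩

end

theorem k0 {k : ℕ} (r : ℝ) (t₀ t : E k) : 0 ≤ kk r t₀ t := by
  have := n0 (t - t₀)
  unfold kk
  positivity

theorem k_le {k : ℕ} {r d : ℝ} {t₀ t : E k} (d0 : 0 < d) (h : d ≤ nsq (t - t₀) + r ^ 2) :
    kk r t₀ t ≤ r ^ 2 / d ^ (k + 1) := by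
  unfold kk
  gcongr

theorem wid {lam Ψ G T o q S f D r u x ε e θ K K₁ : ℝ} {k : ℕ} (G0 : 0 < G)
    (o0 : 0 < o) (q0 : 0 < q) (S0 : 0 < S) (D0 : 0 < D) (r0 : 0 < r) (ε0 : 0 ≤ ε)
    (h1 : |Ψ - θ * Real.log o - (k + 1) * Real.log D| ≤ K) (h2 : |f - Real.log S| ≤ K₁) :
    ∃ d, |d| ≤ K + ε * K₁ ∧
      Real.exp (u * lam) * Real.exp (-(ε * f + ((u - x) * lam + Ψ + e * Real.log q))) * T =
      Real.exp d * (r ^ 2)⁻¹ * (Real.exp (x * lam) * (G ^ x)⁻¹ *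
        (G ^ x * T * o ^ (-θ) * q ^ (-e) * S ^ (-ε))) * (r ^ 2 / D ^ (k + 1)) := by
  refine ⟨-(Ψ - θ * Real.log o - (k + 1) * Real.log D) - ε * (f - Real.log S),
    (abs_sub _ _).trans ?_, ?_⟩
  · rw [abs_neg, abs_mul, abs_of_nonneg ε0]
    exact add_le_add h1 (mul_le_mul_of_nonneg_left h2 ε0)
  have g0 := (Real.rpow_pos_of_pos G0 x).ne'
  have e1 : D ^ (k + 1) = Real.exp ((k + 1) * Real.log D) := by
    rw [← Nat.cast_succ, Real.exp_nat_mul, Real.exp_log D0]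
  rw [e1, Real.rpow_def_of_pos o0, Real.rpow_def_of_pos q0, Real.rpow_def_of_pos S0]
  have e2 : ∀ a b c d e f : ℝ, f ≠ 0 → a * (r ^ 2)⁻¹ * (b * (G ^ x)⁻¹ * (G ^ x * T * c * d * e)) *
      (r ^ 2 / f) = a * b * c * d * e / f * T := fun a b c d e f hf => by field_simp
  rw [e2 _ _ _ _ _ _ (Real.exp_pos _).ne']
  simp only [← Real.exp_add, ← Real.exp_sub]
  refine congrArg (Real.exp · * T) ?_
  ring

theorem fid {Φ C T p N q x κ k e : ℝ} {m : ℕ} (T0 : 0 < T) (p0 : 0 < p) (N0 : 0 < N) (q0 : 0 < q)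
    (h : Φ ≤ C - (m - x) * Real.log T - κ * Real.log p + k / 2 * Real.log N + e * Real.log q) :
    T ^ m * p ^ κ * (N ^ (k / 2) * q ^ (-e)) ≤ Real.exp C * (Real.exp (-Φ) * (N ^ k * T ^ x)) := by
  rw [← Real.rpow_natCast]
  simp only [Real.rpow_def_of_pos T0, Real.rpow_def_of_pos p0, Real.rpow_def_of_pos N0,
    Real.rpow_def_of_pos q0, ← Real.exp_add]
  exact Real.exp_le_exp.2 (by linarith)

variable {n : ℕ} {M : Mf n}

theorem cgr {O : Set M.X} {u w : M.X → ℝ} (hO : IsOpen O) (h : PsK M O u)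
    (e : ∀ x ∈ O, w x = u x) : PsK M O w := fun c hc z hz ho => (h c hc z hz ho).congr
  (((c.continuousAt_symm hz).eventually (hO.mem_nhds ho)).mono fun _ hy => e _ hy)

theorem hdiv {O : Set M.X} {f g : M.X → ℂ} (hO : IsOpen O) (hf : HoK M O f) (hg : HoK M O g)
    (h : ∀ x ∈ O, g x ≠ 0) : HoK M O fun x => f x * (g x)⁻¹ := fun c hc z hz ho => by
  filter_upwards [hf c hc z hz ho, hg c hc z hz ho,
    (c.continuousAt_symm hz).eventually (hO.mem_nhds ho)] with y h1 h2 h3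
  exact h1.mul (h2.inv (h _ h3))

variable {A : An M} {y₀ : M.X} {ρ r α : ℝ} {O : Set M.X} {F G : M.X → ℝ}
  (hK : Krk A y₀ ρ r) (h0 : A.kr y₀ ρ r univ ≠ 0)
include hK h0

theorem eqn (α0 : 0 ≤ α) : ∫⁻ y in A.bx y₀ ρ,
    ENNReal.ofReal (α * G y * kk r (tl (A.s · y₀)) (tl (A.s · y))) ∂M.mu A.H = ENNReal.ofReal α *
      (A.kr y₀ ρ r univ * ∫⁻ y, ENNReal.ofReal (G y) ∂A.nu y₀ ρ r) := by
  rw [← hK.nint h0, hK.int, ← lintegral_const_mul' _ _ ENNReal.ofReal_ne_top]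
  refine lintegral_congr fun y => ?_
  rw [ENNReal.ofReal_mul' (k0 _ _ _), ENNReal.ofReal_mul α0, mul_assoc]

theorem up (α0 : 0 ≤ α) (hO : MeasurableSet O) (h : ∀ y ∈ O,
    (y ∈ A.bx y₀ ρ → F y ≤ α * G y * kk r (tl (A.s · y₀)) (tl (A.s · y))) ∧
      (y ∉ A.bx y₀ ρ → F y ≤ 0)) : Jo M A.H O F ≤ ENNReal.ofReal α *
      (A.kr y₀ ρ r univ * ∫⁻ y, ENNReal.ofReal (G y) ∂A.nu y₀ ρ r) := by
  rw [← eqn hK h0 α0, ← lintegral_indicator hK.ms]
  refine (setLIntegral_mono' hO fun y hy => ?_).trans (setLIntegral_le_lintegral _ _)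
  by_cases hb : y ∈ A.bx y₀ ρ
  · rw [indicator_of_mem hb]
    exact ENNReal.ofReal_le_ofReal ((h y hy).1 hb)
  · rw [indicator_of_notMem hb, ENNReal.ofReal_of_nonpos ((h y hy).2 hb)]

theorem low (α0 : 0 ≤ α) (hO : ∀ᵐ y ∂M.mu A.H, y ∈ O) (h : ∀ y ∈ O,
    y ∈ A.bx y₀ ρ → α * G y * kk r (tl (A.s · y₀)) (tl (A.s · y)) ≤ F y) : ENNReal.ofReal α *
      (A.kr y₀ ρ r univ * ∫⁻ y, ENNReal.ofReal (G y) ∂A.nu y₀ ρ r) ≤ Jo M A.H O F := by
  rw [← eqn hK h0 α0, Jo, Measure.restrict_eq_self_of_ae_mem hO]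
  refine (lintegral_mono_ae ?_).trans (setLIntegral_le_lintegral _ _)
  filter_upwards [ae_restrict_mem hK.ms, ae_restrict_of_ae hO] with y h1 h2
  exact ENNReal.ofReal_le_ofReal (h y h2 h1)

theorem fin (r0 : 0 < r) (hF : Jo M A.H A.O F ≠ ⊤) :
    ∫⁻ y, ENNReal.ofReal (F y) ∂A.nu y₀ ρ r ≠ ⊤ := by
  have h : A.kr y₀ ρ r univ * ∫⁻ y, ENNReal.ofReal (F y) ∂A.nu y₀ ρ r ≤
      Jo M A.H A.O F * ENNReal.ofReal (r ^ 2 / (r ^ 2) ^ (A.k + 1)) := by
    rw [← hK.nint h0, hK.int, Jo, ← lintegral_mul_const' _ _ ENNReal.ofReal_ne_top]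
    exact (lintegral_mono fun y => mul_le_mul_right (ENNReal.ofReal_le_ofReal
      (k_le (by positivity) (le_add_of_nonneg_left (n0 _)))) _).trans
      (lintegral_mono_set inter_subset_left)
  intro e
  rw [e, ENNReal.mul_top h0] at h
  exact ENNReal.mul_ne_top hF ENNReal.ofReal_ne_top (top_le_iff.1 h)

theorem tail [IsFiniteMeasure (M.mu A.H)] {T : Set M.X} {c U : ℝ} (hT : MeasurableSet T)
    (c0 : 0 < c) (U0 : 0 ≤ U) (hc : ENNReal.ofReal c ≤ A.kr y₀ ρ r univ)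
    (h : ∀ y ∈ A.bx y₀ ρ, y ∈ T → kk r (tl (A.s · y₀)) (tl (A.s · y)) ≤ U) :
    c * (A.nu y₀ ρ r).real T ≤ U * (M.mu A.H).real univ := by
  have k : ENNReal.ofReal c * A.nu y₀ ρ r T ≤ ENNReal.ofReal U * M.mu A.H univ := by
    refine (mul_le_mul_left hc _).trans ?_
    rw [← lintegral_indicator_one hT, ← hK.nint h0, hK.int, ← lintegral_const]
    refine (setLIntegral_mono' hK.ms fun y hy => ?_).trans (setLIntegral_le_lintegral _ _)
    by_cases hb : y ∈ T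
    · rw [indicator_of_mem hb, Pi.one_apply, one_mul]
      exact ENNReal.ofReal_le_ofReal (h y hy hb)
    · rw [indicator_of_notMem hb, zero_mul]
      exact zero_le
  have k2 := ENNReal.toReal_mono (ENNReal.mul_ne_top ENNReal.ofReal_ne_top (measure_ne_top _ _)) k
  rwa [ENNReal.toReal_mul, ENNReal.toReal_mul, ENNReal.toReal_ofReal c0.le,
    ENNReal.toReal_ofReal U0] at k2

end Pool.Agent.Lib.KB47.Tra
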